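import Pool.Agent.Helper55.FR.GoalsA

/-! Packet FR-COMP of helper55: components. -/

namespace Pool.Agent.Helper39.FR

open Finset Pool.Agent.Helper55.FR Relation

/-- Packet FR-COMP. -/
theorem comp : CompStmt := by
  classical
  intro V _ _ r hr
  refine ⟨?_, ?_⟩
  · intro T
    let R : V → V → Prop := fun a b => r a b ∧ a ∉ T ∧ b ∉ T
    have hR : ∀ a b, R a b → R b a := fun a b h => ⟨hr a b h.1, h.2.2, h.2.1⟩
    have hsym : ∀ a b, ReflTransGen R a b → ReflTransGen R b a := by
      intro a b h
      induction h with
      | refl => exact ReflTransGen.refl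
      | tail _ h2 ih => exact ReflTransGen.head (hR _ _ h2) ih
    have hT : ∀ a b, a ∉ T → ReflTransGen R a b → b ∉ T := by
      intro a b ha h
      induction h with
      | refl => exact ha
      | tail _ h2 _ => exact h2.2.2
    let C : V → Finset V := fun x => univ.filter fun y => ReflTransGen R x y
    have hC : ∀ x y, y ∈ C x ↔ ReflTransGen R x y := fun x y => by simp [C]
    have hCC : ∀ x y, y ∈ C x → C y = C x := by
      intro x y h
      rw [hC] at h
      ext z
      rw [hC, hC]
      exact ⟨fun h2 => h.trans h2, fun h2 => (hsym _ _ h).trans h2⟩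
    refine ⟨(univ.filter fun x => x ∉ T).image C, ?_⟩
    constructor
    · intro K hK
      obtain ⟨x, _, rfl⟩ := mem_image.1 hK
      exact ⟨x, (hC x x).2 ReflTransGen.refl⟩
    · intro K hK
      obtain ⟨x, hx, rfl⟩ := mem_image.1 hK
      rw [Finset.disjoint_left]
      intro y hy hy2
      exact hT x y (by simpa using hx) ((hC x y).1 hy2) hy
    · intro K hK K' hK' hne
      obtain ⟨x, hx, rfl⟩ := mem_image.1 hK
      obtain ⟨x', hx', rfl⟩ := mem_image.1 hK'
      rw [Finset.disjoint_left]
      intro y hy hy'
      exact hne ((hCC x y hy).symm.trans (hCC x' y hy'))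
    · intro x hx
      exact ⟨C x, mem_image.2 ⟨x, by simpa using hx, rfl⟩, (hC x x).2 ReflTransGen.refl⟩
    · intro K hK x hx y hxy
      obtain ⟨z, hz, rfl⟩ := mem_image.1 hK
      by_cases hy : y ∈ T
      · exact Or.inr hy
      · left
        have h1 := (hC z x).1 hx
        rw [hC]
        exact h1.tail ⟨hxy, hT z x (by simpa using hz) h1, hy⟩
    · intro K hK S hS hne hcl
      obtain ⟨z, hz, rfl⟩ := mem_image.1 hK
      refine Finset.Subset.antisymm hS ?_
      obtain ⟨s, hs⟩ := hne
      have hs1 := (hC z s).1 (hS hs)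
      intro y hy
      have hy1 : ReflTransGen R s y := (hsym _ _ hs1).trans ((hC z y).1 hy)
      clear hy
      induction hy1 with
      | refl => exact hs
      | tail h1 h2 ih =>
        refine hcl _ ih _ ?_ h2.1
        rw [hC]
        exact (hs1.trans h1).tail h2
  · intro T Q hQ S hTS hcl
    have hpart : ∀ K ∈ Q, K ⊆ S ∨ Disjoint K S := by
      intro K hK
      by_cases h : (K ∩ S).Nonempty
      · left
        have h1 := hQ.con K hK (K ∩ S) inter_subset_left h (by
          intro x hx y hy hxy
          rw [mem_inter] at hx ⊢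
          refine ⟨hy, ?_⟩
          rcases hcl x hx.2 y hxy with h2 | h2
          · exact h2
          · exact absurd hy (Finset.disjoint_left.1 (hQ.dis K hK) h2))
        intro x hx
        rw [← h1] at hx
        exact (mem_inter.1 hx).2
      · right
        rw [Finset.disjoint_iff_inter_eq_empty]
        exact not_nonempty_iff_eq_empty.1 h
    refine ⟨hpart, ?_⟩
    have hS : S = (Q.filter fun K => K ⊆ S).biUnion id := by
      ext x
      rw [mem_biUnion]
      constructor
      · intro hx
        obtain ⟨K, hK, hxK⟩ := hQ.cov x (fun h => Finset.disjoint_left.1 hTS h hx)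
        refine ⟨K, mem_filter.2 ⟨hK, ?_⟩, hxK⟩
        rcases hpart K hK with h1 | h1
        · exact h1
        · exact absurd hx (Finset.disjoint_left.1 h1 hxK)
      · rintro ⟨K, hK, hxK⟩
        exact (mem_filter.1 hK).2 hxK
    conv_lhs => rw [hS]
    rw [card_biUnion]
    · rfl
    · intro K hK K' hK' hne
      exact hQ.kK K (mem_filter.1 hK).1 K' (mem_filter.1 hK').1 hne

end Pool.Agent.Helper39.FR
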