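import Pool.Agent.Helper92.FR.GoalsB

/-!
# Few rows in a box: VAL2

The values of `psi`, `zet` and `wgt`, and the enumeration of the grid.
-/

namespace Pool.Agent.Helper39.FR

open Pool.Agent.Helper81.CC Pool.Agent.Bin Pool.Agent.Helper92.VP Pool.Agent.Helper92.FR

noncomputable section

theorem prod_range_list {α : Type*} [CommMonoid α] (f : ℕ → α) (n : ℕ) :
    ((List.range n).map f).prod = ∏ i ∈ Finset.range n, f i := by
  induction n with
  | zero => simp
  | succ n ih => simp [List.range_succ, Finset.prod_range_succ, ih]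

theorem sum_range_list {α : Type*} [AddCommMonoid α] (f : ℕ → α) (n : ℕ) :
    ((List.range n).map f).sum = ∑ i ∈ Finset.range n, f i := by
  induction n with
  | zero => simp
  | succ n ih => simp [List.range_succ, Finset.sum_range_succ, ih]

theorem dig_lt (W M n0 i : ℕ) : dig W M n0 i < 2 * M + 1 :=
  Nat.mod_lt _ (by omega)

theorem cpw_small {W M d : ℕ} (hW : (2 * M + 1) ^ d ≤ W) {i : ℕ} (hi : i ≤ d) :
    Pool.Agent.Helper78.DT.cpw W (2 * M + 1) i = (2 * M + 1) ^ i := by
  have h1 : 1 ≤ (2 * M + 1) ^ d := Nat.one_le_pow _ _ (by omega)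
  rw [Pool.Agent.Helper3.DT.cpw_eq (h1.trans hW) (by omega)]
  exact min_eq_right ((Nat.pow_le_pow_right (by omega) hi).trans hW)

theorem dig_eq {W M d : ℕ} (hW : (2 * M + 1) ^ d ≤ W) (n0 : ℕ) {i : ℕ} (hi : i ≤ d) :
    dig W M n0 i = n0 / (2 * M + 1) ^ i % (2 * M + 1) := by
  unfold dig
  rw [cpw_small hW hi]

theorem mem_grid' {d W M n0 : ℕ} : (fun i : Fin d => (dig W M n0 i : ℤ) - M) ∈ grid M := by
  unfold grid
  rw [Fintype.mem_piFinset]
  intro i
  rw [Finset.mem_Icc]
  have := dig_lt W M n0 i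
  constructor
  · omega
  · omega

theorem grid_sum {W M d : ℕ} (hW : (2 * M + 1) ^ d ≤ W) (φ : (Fin d → ℤ) → ℂ) :
    ((List.range ((2 * M + 1) ^ d)).map fun n0 =>
      φ fun i => (dig W M n0 i : ℤ) - M).sum = ∑ k ∈ grid M, φ k := by
  rw [sum_range_list, ← Fin.sum_univ_eq_sum_range
    (fun n0 => φ fun i : Fin d => (dig W M n0 i : ℤ) - M) ((2 * M + 1) ^ d)]
  have hd : ∀ (a : Fin ((2 * M + 1) ^ d)) (i : Fin d),
      dig W M a i = (finFunctionFinEquiv.symm a i : Fin (2 * M + 1)).val := by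
    intro a i
    rw [dig_eq hW _ i.isLt.le]
    rfl
  refine Finset.sum_bij (fun a _ => fun i : Fin d => (dig W M a i : ℤ) - M) ?_ ?_ ?_ ?_
  · intro a _
    exact mem_grid'
  · intro a _ b _ hab
    apply finFunctionFinEquiv.symm.injective
    funext i
    apply Fin.ext
    rw [← hd a i, ← hd b i]
    have h5 : (dig W M a i : ℤ) - M = (dig W M b i : ℤ) - M := congrFun hab i
    omega
  · intro k hk
    unfold grid at hk
    rw [Fintype.mem_piFinset] at hk
    have hk' : ∀ i, -(M : ℤ) ≤ k i ∧ k i ≤ M := fun i => Finset.mem_Icc.mp (hk i)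
    refine ⟨finFunctionFinEquiv (fun i => ⟨(k i + M).toNat, by have := hk' i; omega⟩),
      Finset.mem_univ _, ?_⟩
    funext i
    rw [hd, Equiv.symm_apply_apply]
    have := hk' i
    simp only
    omega
  · intro a _
    rfl

theorem wtl_val {M a : ℕ} (ha : a ≤ M) :
    Qn.val (wtl M a) = ∏ i ∈ Finset.range a, ((M : ℝ) - i) / ((M : ℝ) + i + 1) := by
  unfold wtl
  rw [Qn.val_prod, List.map_map, prod_range_list]
  refine Finset.prod_congr rfl fun i hi => ?_
  rw [Finset.mem_range] at hi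
  simp only [Function.comp, Qn.val, BN.val_ofNat]
  rw [Nat.cast_sub (hi.le.trans ha)]
  push_cast
  simp

theorem wgt_val (d W M n0 : ℕ) :
    Qn.val (wgt d W M n0) = ∏ i : Fin d, wt M ((dig W M n0 i : ℤ) - M) := by
  unfold wgt
  rw [Qn.val_prod, List.map_map, prod_range_list, ← Fin.prod_univ_eq_prod_range]
  refine Finset.prod_congr rfl fun i _ => ?_
  have h1 := dig_lt W M n0 i
  have h2 : ((dig W M n0 i : ℤ) - M).natAbs = (dig W M n0 i - M) + (M - dig W M n0 i) := by omega
  simp only [Function.comp]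
  rw [wtl_val (by omega)]
  unfold wt
  rw [h2]

theorem lv_tvec {d W M H : ℕ} (hH : 1 ≤ H) (n0 : ℕ) (i : Fin d) :
    lv d (tvec d W M H n0) i = 1 / (H : ℝ) * (((dig W M n0 i : ℤ) - M : ℤ) : ℝ) := by
  unfold lv tvec
  rw [List.getD_eq_getElem _ _ (by simp), List.getElem_map, List.getElem_range]
  simp only [Qn.val, BN.val_ofNat, BN.val_sub]
  have h1 : ((H - 1 : ℕ) : ℝ) + 1 = H := by
    rw [Nat.cast_sub hH]
    push_cast
    ring
  have h2 : (BN.val ⟨1⟩) = 1 := rfl
  rw [h1]
  push_cast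
  ring

theorem length_tvec (d W M H n0 : ℕ) : (tvec d W M H n0).length = d := by
  simp [tvec]

theorem length_mulv (T : List (List Qn)) (w : List Qn) : (mulv T w).length = T.length := by
  simp [mulv]

section

variable (h0 : Val0Stmt)
include h0

theorem lv_mulv {n : ℕ} {T : List (List Qn)} {w : List Qn} (hT : T.length = n)
    (hT' : ∀ r ∈ T, r.length = n) (hw : w.length = n) (i : Fin n) :
    lv n (mulv T w) i = ∑ i', lm n T i i' * lv n w i' := by
  have hi : (i : ℕ) < T.length := by rw [hT]; exact i.isLt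
  have h1 : lv n (mulv T w) i = Qn.val (dot (T.getD i []) w) := by
    unfold lv mulv
    rw [List.getD_eq_getElem _ _ (by simpa using hi), List.getElem_map,
      List.getD_eq_getElem _ _ hi]
  rw [h1, h0.1 n _ w (by rw [List.getD_eq_getElem _ _ hi]; exact hT' _ (List.getElem_mem _)) hw]
  rfl

theorem dot_mulv {n : ℕ} {T : List (List Qn)} {w t : List Qn} (hT : T.length = n)
    (hT' : ∀ r ∈ T, r.length = n) (hw : w.length = n) (ht : t.length = n) :
    Qn.val (dot t (mulv T w)) = ∑ i, lv n t i * ∑ i', lm n T i i' * lv n w i' := by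
  rw [h0.1 n t _ ht (by rw [length_mulv, hT])]
  exact Finset.sum_congr rfl fun i _ => by rw [lv_mulv h0 hT hT' hw]

theorem dot_lam {D : Nin} {lam : List Qn} (hD : Wf D) (hl : lam.length = nrow D)
    (j : Fin D.1.length ⊕ Fin (nrow D)) :
    Qn.val (dot lam (colL D j)) = aa (CR D) (SR D) (lv (nrow D) lam) j := by
  have h := (h0.2 D).2.2 hD j
  rw [h0.1 (nrow D) lam _ hl h.1, h.2]
  rfl

theorem dot_sjk {D : Nin} {T : List (List Qn)} {W M H : ℕ} (hD : Wf D)
    (hT : T.length = nrow D) (hT' : ∀ r ∈ T, r.length = nrow D) (hH : 1 ≤ H) (n0 : ℕ)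
    (j : Fin D.1.length ⊕ Fin (nrow D)) :
    Qn.val (dot (tvec (nrow D) W M H n0) (mulv T (colL D j))) =
      sjk (CR D) (SR D) (lm (nrow D) T) (1 / H) (fun i => (dig W M n0 i : ℤ) - M) j := by
  have h := (h0.2 D).2.2 hD j
  rw [dot_mulv h0 hT hT' h.1 (length_tvec _ _ _ _ _)]
  unfold sjk
  refine Finset.sum_congr rfl fun i _ => ?_
  rw [lv_tvec hH, h.2]

/-- VAL2 (may assume VAL0). -/
theorem val2 : Val2Stmt := by
  intro D lam T M H W hD hl hT hT' hM hH hW
  refine ⟨cpw_small hW le_rfl, grid_sum hW, ?_⟩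
  intro n0 k
  refine ⟨mem_grid', wgt_val _ _ _ _, ?_, ?_⟩
  · unfold psi
    rw [Qn.val_sub, Qn.val_sum, List.map_map, (h0.2 D).2.1,
      dot_mulv h0 hT hT' hD.2 (length_tvec _ _ _ _ _)]
    unfold Psi
    congr 1
    · refine Finset.sum_congr rfl fun j _ => ?_
      simp only [Function.comp]
      rw [← dot_lam h0 hD hl j]
      by_cases hle : Qn.le (dot lam (colL D j)) Qn.zero = true
      · have h1 := (Qn.le_iff _ _).mp hle
        rw [Qn.val_zero] at h1
        rw [if_pos hle, if_neg (not_lt.mpr h1), Qn.val_zero]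
      · have h1 : ¬ Qn.val (dot lam (colL D j)) ≤ Qn.val Qn.zero :=
          fun h => hle ((Qn.le_iff _ _).mpr h)
        rw [Qn.val_zero, not_le] at h1
        rw [if_neg hle, if_pos h1]
        exact dot_sjk h0 hD hT hT' hH n0 j
    · refine Finset.sum_congr rfl fun i _ => ?_
      rw [lv_tvec hH]
      rfl
  · intro j
    unfold zet zeta
    rw [← dot_lam h0 hD hl j]
    by_cases hle : Qn.le (dot lam (colL D j)) Qn.zero = true
    · have h1 := (Qn.le_iff _ _).mp hle
      rw [Qn.val_zero] at h1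
      rw [if_pos hle, if_neg (not_lt.mpr h1), Cn.val_mk, Qn.val_abs, Qn.val_neg,
        dot_sjk h0 hD hT hT' hH n0 j]
    · have h1 : ¬ Qn.val (dot lam (colL D j)) ≤ Qn.val Qn.zero :=
        fun h => hle ((Qn.le_iff _ _).mpr h)
      rw [Qn.val_zero, not_le] at h1
      rw [if_neg hle, if_pos h1, Cn.val_mk, Qn.val_abs, dot_sjk h0 hD hT hT' hH n0 j]

end

end

end Pool.Agent.Helper39.FR
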